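import Mathlib

/-!
Clique numbers of the graphs `Γ(X² + bXY + Y², V)`: the ratio `ω / #V` is `O(1/q)` uniformly.
-/

namespace Pool.Agent.Results.MP_e8cc41_co.CliqueRatio

/-- The graph `Γ(Q_b, V)`, `Q_b(x,y) = x² + b x y + y²`. -/
def Gam {k L : Type*} [Field k] [Field L] [Algebra k L] (b : L) (V : Submodule k L) :
    SimpleGraph L where
  Adj x y := x ≠ y ∧ x ^ 2 + b * x * y + y ^ 2 ∈ V
  symm := ⟨fun x y h => ⟨h.1.symm, by
    have : y ^ 2 + b * y * x + x ^ 2 = x ^ 2 + b * x * y + y ^ 2 := by ring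
    rw [this]; exact h.2⟩⟩
  loopless := ⟨fun x h => h.1 rfl⟩

/-- Admissible subspaces: nonzero, `(#V)² < #L = qⁿ`, and no multiple `αV` is a subfield. -/
def Admissible {k L : Type*} [Field k] [Field L] [Algebra k L] (V : Submodule k L) : Prop :=
  V ≠ ⊥ ∧ Nat.card V ^ 2 < Nat.card L ∧
    ∀ (α : L) (F : Subfield L), (fun v => α * v) '' (V : Set L) ≠ (F : Set L)

section

set_option linter.unusedSectionVars false

variable {k L : Type*} [Field k] [Fintype k] [Field L] [Fintype L] [Algebra k L]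

theorem diff_mem {b : L} {V : Submodule k L} {s : Finset L} (hs : (Gam b V).IsClique s)
    {x x' y y' : L} (hx : x ∈ s) (hx' : x' ∈ s) (hy : y ∈ s) (hy' : y' ∈ s)
    (h1 : x ≠ y) (h2 : x ≠ y') (h3 : x' ≠ y) (h4 : x' ≠ y') :
    b * (x - x') * (y - y') ∈ V := by
  have a1 := (hs hx hy h1).2
  have a2 := (hs hx hy' h2).2
  have a3 := (hs hx' hy h3).2
  have a4 := (hs hx' hy' h4).2
  have := V.add_mem (V.sub_mem a1 a2) (V.sub_mem a4 a3)
  have e : x ^ 2 + b * x * y + y ^ 2 - (x ^ 2 + b * x * y' + y' ^ 2) +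
      (x' ^ 2 + b * x' * y' + y' ^ 2 - (x' ^ 2 + b * x' * y + y ^ 2)) =
      b * (x - x') * (y - y') := by ring
  rwa [e] at this

/-- The subspace `(c)⁻¹ V`. -/
def W (V : Submodule k L) (c : L) : Submodule k L := V.comap (LinearMap.mulLeft k c)

theorem mem_W {V : Submodule k L} {c w : L} : w ∈ W V c ↔ c * w ∈ V := by
  simp [W]

theorem card_W (V : Submodule k L) {c : L} (hc : c ≠ 0) : Nat.card (W V c) = Nat.card V := by
  apply Nat.card_congr
  exact {
    toFun := fun w => ⟨c * w.1, mem_W.1 w.2⟩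
    invFun := fun v => ⟨c⁻¹ * v.1, mem_W.2 (by rw [mul_inv_cancel_left₀ hc]; exact v.2)⟩
    left_inv := fun w => by ext; simp [hc]
    right_inv := fun v => by ext; simp [hc] }

theorem card_sub (V : Submodule k L) : Nat.card V = Nat.card k ^ Module.finrank k V := by
  exact Module.natCard_eq_pow_finrank

theorem card_inf_le (V : Submodule k L) {c d : L} (hc : c ≠ 0) (hd : d ≠ 0)
    (h : W V c ≠ W V d) : Nat.card k * Nat.card (W V c ⊓ W V d : Submodule k L) ≤ Nat.card V := by
  have h1 : W V c ⊓ W V d < W V c := by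
    refine lt_of_le_of_ne inf_le_left ?_
    intro e
    have h2 : W V c ≤ W V d := inf_eq_left.1 e
    apply h
    have h3 : Module.finrank k (W V c) = Module.finrank k (W V d) := by
      have e1 := card_W V hc
      have e2 := card_W V hd
      rw [← e2, card_sub, card_sub] at e1
      exact Nat.pow_right_injective (by
        rw [Nat.card_eq_fintype_card]; exact Fintype.one_lt_card) e1
    exact Submodule.eq_of_le_of_finrank_eq h2 h3
  have h2 := Submodule.finrank_lt_finrank_of_lt h1
  rw [← card_W V hc, card_sub, card_sub, ← pow_succ']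
  exact Nat.pow_le_pow_right (by rw [Nat.card_eq_fintype_card]; exact Fintype.card_pos) h2

/-- The multiplier ring of `V`. -/
def stab (V : Submodule k L) : Subfield L where
  carrier := {c | ∀ v ∈ V, c * v ∈ V}
  mul_mem' := by
    intro a b ha hb v hv
    rw [mul_assoc]
    exact ha _ (hb v hv)
  one_mem' := by intro v hv; rwa [one_mul]
  add_mem' := by
    intro a b ha hb v hv
    rw [add_mul]
    exact V.add_mem (ha v hv) (hb v hv)
  zero_mem' := by intro v _; rw [zero_mul]; exact V.zero_mem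
  neg_mem' := by
    intro a ha v hv
    rw [neg_mul]
    exact V.neg_mem (ha v hv)
  inv_mem' := by
    intro a ha v hv
    by_cases h0 : a = 0
    · subst h0; simp
    · let f : V → V := fun w => ⟨a * w.1, ha w.1 w.2⟩
      have hf : Function.Injective f := by
        intro u w h
        have h1 : a * u.1 = a * w.1 := congrArg Subtype.val h
        exact Subtype.ext (mul_left_cancel₀ h0 h1)
      obtain ⟨w, hw⟩ := (Finite.injective_iff_surjective.1 hf) ⟨v, hv⟩
      have h1 : a * w.1 = v := congrArg Subtype.val hw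
      rw [← h1, inv_mul_cancel_left₀ h0]
      exact w.2

theorem mem_stab {V : Submodule k L} {c : L} : c ∈ stab V ↔ ∀ v ∈ V, c * v ∈ V := Iff.rfl

theorem card_stab_sq (V : Submodule k L) (hV : Admissible V) :
    Nat.card (stab V) * Nat.card (stab V) ≤ Nat.card V := by
  obtain ⟨h0, _, h2⟩ := hV
  obtain ⟨v0, hv0, hne⟩ := (Submodule.ne_bot_iff V).1 h0
  have h3 : ∃ v1 ∈ V, ∀ c ∈ stab V, v1 ≠ c * v0 := by
    by_contra hcon
    push Not at hcon
    apply h2 v0⁻¹ (stab V)
    ext z
    constructor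
    · rintro ⟨v, hv, rfl⟩
      obtain ⟨c, hc, hvc⟩ := hcon v hv
      simp only
      rw [hvc, mul_comm c v0, inv_mul_cancel_left₀ hne]
      exact hc
    · intro hz
      refine ⟨z * v0, hz v0 hv0, ?_⟩
      simp only
      rw [mul_comm z v0, inv_mul_cancel_left₀ hne]
  obtain ⟨v1, hv1, hv1c⟩ := h3
  rw [← Nat.card_prod]
  let g : stab V × stab V → V := fun p =>
    ⟨p.1.1 * v0 + p.2.1 * v1, V.add_mem (p.1.2 v0 hv0) (p.2.2 v1 hv1)⟩
  apply Nat.card_le_card_of_injective g
  rintro ⟨a, c⟩ ⟨a', c'⟩ h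
  have h4 : a.1 * v0 + c.1 * v1 = a'.1 * v0 + c'.1 * v1 := congrArg Subtype.val h
  have h5 : c.1 = c'.1 := by
    by_contra hcc
    have h6 : c.1 - c'.1 ≠ 0 := sub_ne_zero.2 hcc
    have h7 : (c.1 - c'.1) * v1 = (a'.1 - a.1) * v0 := by
      linear_combination h4
    apply hv1c ((c.1 - c'.1)⁻¹ * (a'.1 - a.1))
      ((stab V).mul_mem ((stab V).inv_mem ((stab V).sub_mem c.2 c'.2))
        ((stab V).sub_mem a'.2 a.2))
    rw [mul_assoc, ← h7, inv_mul_cancel_left₀ h6]
  have h6 : a.1 = a'.1 := by
    rw [h5] at h4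
    have := add_right_cancel h4
    exact mul_right_cancel₀ hne this
  exact Prod.ext (Subtype.ext h6) (Subtype.ext h5)

theorem card_k_le_stab (V : Submodule k L) : Nat.card k ≤ Nat.card (stab V) := by
  let g : k → stab V := fun a => ⟨algebraMap k L a, fun v hv => by
    rw [← Algebra.smul_def]; exact V.smul_mem a hv⟩
  apply Nat.card_le_card_of_injective g
  intro a a' h
  exact (algebraMap k L).injective (congrArg Subtype.val h)

/-- Every clique has at most `#V/q + 4` elements. -/
theorem clique_bound (V : Submodule k L) (hV : Admissible V) {b : L} (hb : b ≠ 0)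
    {s : Finset L} (hs : (Gam b V).IsClique s) :
    Nat.card k * s.card ≤ Nat.card V + 4 * Nat.card k := by
  classical
  have hkpos : 0 < Nat.card k := Nat.card_pos
  by_cases h : ∃ x ∈ s, ∃ x' ∈ s, ∃ z ∈ s, ∃ z' ∈ s, x ≠ x' ∧ z ≠ z' ∧
      W V (b * (x - x')) ≠ W V (b * (z - z'))
  · obtain ⟨x, hx, x', hx', z, hz, z', hz', hxx, hzz, hW⟩ := h
    have c1 : b * (x - x') ≠ 0 := mul_ne_zero hb (sub_ne_zero.2 hxx)
    have c2 : b * (z - z') ≠ 0 := mul_ne_zero hb (sub_ne_zero.2 hzz)
    have h1 := card_inf_le V c1 c2 hW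
    set T := ((((s.erase x).erase x').erase z).erase z') with hT
    have hTcard : s.card ≤ T.card + 4 := by
      rw [hT]
      have e1 := Finset.pred_card_le_card_erase (s := s) (a := x)
      have e2 := Finset.pred_card_le_card_erase (s := s.erase x) (a := x')
      have e3 := Finset.pred_card_le_card_erase (s := (s.erase x).erase x') (a := z)
      have e4 := Finset.pred_card_le_card_erase (s := ((s.erase x).erase x').erase z) (a := z')
      omega
    have hmem : ∀ y ∈ T, y ∈ s ∧ y ≠ x ∧ y ≠ x' ∧ y ≠ z ∧ y ≠ z' := by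
      intro y hy
      rw [hT, Finset.mem_erase, Finset.mem_erase, Finset.mem_erase, Finset.mem_erase] at hy
      exact ⟨hy.2.2.2.2, hy.2.2.2.1, hy.2.2.1, hy.2.1, hy.1⟩
    have hTle : T.card ≤ Nat.card (W V (b * (x - x')) ⊓ W V (b * (z - z')) : Submodule k L) := by
      rcases T.eq_empty_or_nonempty with h0 | ⟨y0, hy0⟩
      · rw [h0]; simp
      · obtain ⟨m0, m1, m2, m3, m4⟩ := hmem y0 hy0
        have hin : ∀ y : {y // y ∈ T}, y.1 - y0 ∈ W V (b * (x - x')) ⊓ W V (b * (z - z')) := by
          rintro ⟨y, hy⟩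
          obtain ⟨n0, n1, n2, n3, n4⟩ := hmem y hy
          refine ⟨mem_W.2 ?_, mem_W.2 ?_⟩
          · exact diff_mem hs hx hx' n0 m0 n1.symm m1.symm n2.symm m2.symm
          · exact diff_mem hs hz hz' n0 m0 n3.symm m3.symm n4.symm m4.symm
        have e : T.card = Nat.card {y // y ∈ T} := by
          rw [Nat.card_eq_fintype_card, Fintype.card_coe]
        rw [e]
        let g : {y // y ∈ T} → (W V (b * (x - x')) ⊓ W V (b * (z - z')) : Submodule k L) :=
          fun y => ⟨y.1 - y0, hin y⟩
        apply Nat.card_le_card_of_injective g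
        intro y y' hyy
        have h5 : y.1 - y0 = y'.1 - y0 := congrArg Subtype.val hyy
        exact Subtype.ext (sub_left_injective h5)
    calc Nat.card k * s.card ≤ Nat.card k * (T.card + 4) := Nat.mul_le_mul_left _ hTcard
      _ = Nat.card k * T.card + 4 * Nat.card k := by ring
      _ ≤ Nat.card k * Nat.card (W V (b * (x - x')) ⊓ W V (b * (z - z')) : Submodule k L) +
          4 * Nat.card k := by
        apply Nat.add_le_add_right
        exact Nat.mul_le_mul_left _ hTle
      _ ≤ _ := Nat.add_le_add_right h1 _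
  · push Not at h
    rcases Nat.lt_or_ge s.card 2 with h2 | h2
    · nlinarith
    · obtain ⟨x0, hx0, x1, hx1, hne⟩ := Finset.one_lt_card.1 h2
      have hu : x1 - x0 ≠ 0 := sub_ne_zero.2 hne.symm
      have hin : ∀ x : {x // x ∈ s}, (x.1 - x0) / (x1 - x0) ∈ stab V := by
        rintro ⟨x, hx⟩ v hv
        by_cases hxx : x = x0
        · subst hxx; simp
        · have e := h x hx x0 hx0 x1 hx1 x0 hx0 hxx hne.symm
          have h3 : v / (b * (x1 - x0)) ∈ W V (b * (x1 - x0)) := by
            rw [mem_W, mul_div_cancel₀ _ (mul_ne_zero hb hu)]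
            exact hv
          rw [← e, mem_W] at h3
          have h4 : b * (x - x0) * (v / (b * (x1 - x0))) = (x - x0) / (x1 - x0) * v := by
            field_simp
          rwa [h4] at h3
      have e : s.card = Nat.card {y // y ∈ s} := by
        rw [Nat.card_eq_fintype_card, Fintype.card_coe]
      have h5 : s.card ≤ Nat.card (stab V) := by
        rw [e]
        let g : {y // y ∈ s} → stab V := fun y => ⟨(y.1 - x0) / (x1 - x0), hin y⟩
        apply Nat.card_le_card_of_injective g
        intro y y' hyy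
        have h5 : (y.1 - x0) / (x1 - x0) = (y'.1 - x0) / (x1 - x0) := congrArg Subtype.val hyy
        rw [div_left_inj' hu] at h5
        exact Subtype.ext (sub_left_injective h5)
      have h6 := card_stab_sq V hV
      have h7 := card_k_le_stab V
      calc Nat.card k * s.card ≤ Nat.card (stab V) * Nat.card (stab V) := Nat.mul_le_mul h7 h5
        _ ≤ Nat.card V := h6
        _ ≤ _ := Nat.le_add_right _ _

theorem card_V_ge (V : Submodule k L) (hV : Admissible V) :
    Nat.card k * Nat.card k ≤ Nat.card V :=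
  (Nat.mul_le_mul (card_k_le_stab V) (card_k_le_stab V)).trans (card_stab_sq V hV)

/-- The explicit uniform bound. -/
theorem ratio_bound (V : Submodule k L) (hV : Admissible V) {b : L} (hb : b ≠ 0) :
    ((Gam b V).cliqueNum : ℝ) / Nat.card V ≤ 1 / (Nat.card k : ℝ) + 4 / (Nat.card k : ℝ) ^ 2 := by
  obtain ⟨s, hs⟩ := (Gam b V).exists_isNClique_cliqueNum
  have h1 := clique_bound V hV hb hs.isClique
  rw [hs.card_eq] at h1
  have h2 := card_V_ge V hV
  have hk : (0 : ℝ) < Nat.card k := by exact_mod_cast (Nat.card_pos : 0 < Nat.card k)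
  have hVp : (0 : ℝ) < Nat.card V := by exact_mod_cast (Nat.card_pos : 0 < Nat.card V)
  have h1' : (Nat.card k : ℝ) * (Gam b V).cliqueNum ≤ Nat.card V + 4 * Nat.card k := by
    exact_mod_cast h1
  have h2' : (Nat.card k : ℝ) * Nat.card k ≤ Nat.card V := by exact_mod_cast h2
  rw [div_add_div _ _ hk.ne' (by positivity), div_le_div_iff₀ hVp (by positivity)]
  nlinarith [mul_le_mul_of_nonneg_left h1' (by positivity : 0 ≤ (Nat.card k : ℝ) ^ 2),
    mul_le_mul_of_nonneg_left h2' (by positivity : 0 ≤ 4 * (Nat.card k : ℝ))]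

end

/-- **Full positive answer to Q1**, with an explicit rate, uniform in `n`, `V` and `b`:
`ω(Q_b, V) / #V ≤ 1/q + 4/q²` for every admissible `V ⊆ 𝔽_{qⁿ}` and every `b ≠ 0`. -/
theorem result {k L : Type*} [Field k] [Fintype k] [Field L] [Fintype L] [Algebra k L]
    (_hq : Odd (Fintype.card k)) (_hn : 2 ≤ Module.finrank k L)
    (V : Submodule k L) (hV : Admissible V) (b : L) (hb : b ≠ 0) :
    ((Gam b V).cliqueNum : ℝ) / (Nat.card V : ℝ) ≤
      1 / (Fintype.card k : ℝ) + 4 / (Fintype.card k : ℝ) ^ 2 := by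
  have := ratio_bound V hV hb
  rwa [Nat.card_eq_fintype_card (α := k)] at this

end Pool.Agent.Results.MP_e8cc41_co.CliqueRatio
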